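import Pool.Agent.K4H43.CR.Stab
import Pool.Agent.W578.SI.Scale
import Pool.Agent.Y229.MS.Stm

/-!
# The functional equation of the polynomials which `f + y z` becomes under automorphisms
-/

set_option autoImplicit false

namespace Pool.Agent.K4H43.CR

open MvPolynomial
open Pool.Agent.H628R4.TP
open Pool.Agent.W578.SI (cj cj_def cj_mem b_transfer)
open Pool.Agent.Y229.RE (Sep mul_mem pd_mem qq)
open Pool.Agent.Y229.MS (addyz)

variable {n M : ℕ}

/-- conjugation by an automorphism preserves the Weyl algebra -/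
theorem cj_all (φ : MvPolynomial (Fin M) ℂ ≃ₐ[ℂ] MvPolynomial (Fin M) ℂ) :
    ∀ Q ∈ weylS (Fin M), cj φ Q ∈ weylS (Fin M) := by
  refine cj_mem φ (fun i => Pool.Agent.Y229.RE.mul_mem _) fun i => ?_
  have h1 : cj φ ((pderiv i : Derivation ℂ (MvPolynomial (Fin M) ℂ)
      (MvPolynomial (Fin M) ℂ)) : MvPolynomial (Fin M) ℂ →ₗ[ℂ] MvPolynomial (Fin M) ℂ) =
      ∑ j, LinearMap.mulLeft ℂ (φ (pderiv i (φ.symm (X j)))) *
        ((pderiv j : Derivation ℂ (MvPolynomial (Fin M) ℂ)
      (MvPolynomial (Fin M) ℂ)) : MvPolynomial (Fin M) ℂ →ₗ[ℂ] MvPolynomial (Fin M) ℂ) := by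
    refine LinearMap.ext fun g => ?_
    rw [cj_def, LinearMap.sum_apply]
    show φ (pderiv i (φ.symm g)) = ∑ j, φ (pderiv i (φ.symm (X j))) * pderiv j g
    induction g using MvPolynomial.induction_on with
    | C c =>
      rw [show φ.symm (C c : MvPolynomial (Fin M) ℂ) = C c from φ.symm.commutes c, pderiv_C,
        map_zero]
      exact (Finset.sum_eq_zero fun j _ => by rw [pderiv_C, mul_zero]).symm
    | add p q hp hq =>
      rw [map_add, map_add, map_add, hp, hq, ← Finset.sum_add_distrib]
      refine Finset.sum_congr rfl fun j _ => ?_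
      rw [map_add, mul_add]
    | mul_X p j0 hp =>
      classical
      rw [map_mul, Derivation.leibniz, smul_eq_mul, smul_eq_mul, map_add, map_mul, map_mul, hp,
        AlgEquiv.apply_symm_apply, AlgEquiv.apply_symm_apply]
      have h2 : ∀ j, φ (pderiv i (φ.symm (X j))) * pderiv j (p * X j0) =
          (if j = j0 then p * φ (pderiv i (φ.symm (X j0))) else 0) +
            X j0 * (φ (pderiv i (φ.symm (X j))) * pderiv j p) := by
        intro j
        rw [Derivation.leibniz, smul_eq_mul, smul_eq_mul]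
        by_cases h3 : j = j0
        · subst h3
          rw [pderiv_X_self, if_pos rfl]
          ring
        · rw [pderiv_X_of_ne (Ne.symm h3), if_neg h3]
          ring
      rw [Finset.sum_congr rfl fun j _ => h2 j, Finset.sum_add_distrib, Finset.sum_ite_eq' _ j0,
        if_pos (Finset.mem_univ _), Finset.mul_sum]
  rw [h1]
  exact Subalgebra.sum_mem _ fun j _ =>
    Subalgebra.mul_mem _ (Pool.Agent.Y229.RE.mul_mem _) (pd_mem j)

theorem sep2 : Sep (N := n) (M := n + 2) (k := 1) (Fin.castAdd 2) (fun _ => Fin.natAdd n 0)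
    (fun _ => Fin.natAdd n 1) where
  i1 := Fin.castAdd_injective _ _
  i2 := fun i j _ => Subsingleton.elim i j
  i3 := fun i j _ => Subsingleton.elim i j
  n1 := fun i j h => by
    have := congrArg Fin.val h
    simp at this
    omega
  n2 := fun i j h => by
    have := congrArg Fin.val h
    simp at this
    omega
  n3 := fun i j h => by
    have := congrArg Fin.val h
    simp at this

/-- **The functional equation of `f + y z` and of its images under automorphisms.** -/
theorem bf_step {f : MvPolynomial (Fin n) ℂ} (hf : f.totalDegree ≠ 0) {c : Polynomial ℂ}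
    (hb : IsBFunction f ((Polynomial.X + 1) * c))
    (ψ : MvPolynomial (Fin (n + 2)) ℂ ≃ₐ[ℂ] MvPolynomial (Fin (n + 2)) ℂ) :
    IsBFunction (ψ (addyz f))
      ((Polynomial.X + 1) * c.comp (Polynomial.X + Polynomial.C 1)) := by
  obtain ⟨-, h2⟩ := reduced hf (formal_iff.1 hb)
  have h1 := red_stab sep2 f c (h2 c rfl)
  have e : (rename (Fin.castAdd 2) f + qq (fun _ : Fin 1 => Fin.natAdd n 0)
      (fun _ : Fin 1 => Fin.natAdd n 1) : MvPolynomial (Fin (n + 2)) ℂ) = addyz f := by
    unfold qq addyz
    rw [Fin.sum_univ_one]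
  rw [e, Nat.cast_one] at h1
  have h3 := b_transfer ψ (cj_all ψ) 1 one_ne_zero _ _ (formal_iff.2 (unreduced h1))
  rw [C_1, one_mul] at h3
  exact h3

/-- `-1` is a root -/
theorem root_neg_one {f : MvPolynomial (Fin n) ℂ} (hf : f.totalDegree ≠ 0) {b : Polynomial ℂ}
    (hb : IsBFunction f b) : b.eval (-1) = 0 := (reduced hf (formal_iff.1 hb)).1

end Pool.Agent.K4H43.CR
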