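import Pool.Agent.K4H43.CR.Iso

/-!
# Monomials
-/

set_option autoImplicit false

namespace Pool.Agent.K4H43.CR

open MvPolynomial Pool.Agent.Y229.MS

section
variable {k : Type} [Field k] {n : ℕ}

/-- the final monomials -/
def Fi (Y : Fin n → Bool) (m : Fin n →₀ ℕ) : Prop :=
  (∀ i, m i ≤ 1) ∧ (∑ i, if Y i then m i else 0) ≤ 1 ∧ (∑ i, if Y i then 0 else m i) ≤ 2

/-- the monomials without the variables of `Y` -/
def Ra (Y : Fin n → Bool) (m : Fin n →₀ ℕ) : Prop := ∀ i, Y i = true → m i = 0

/-- the weight of a monomial -/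
def wt (m : Fin n →₀ ℕ) : ℕ := ∑ i, (m i - 1) + (∑ i, m i - 2) + 1

/-- the new set -/
def ex (Y : Fin n → Bool) : Fin (n + 2) → Bool := Fin.addCases Y ![true, false]

@[simp] theorem ex_x (Y : Fin n → Bool) (i : Fin n) : ex Y (Fin.castAdd 2 i) = Y i := by
  unfold ex
  rw [Fin.addCases_left]

@[simp] theorem ex_y (Y : Fin n → Bool) : ex Y (Fin.natAdd n 0) = true := by
  unfold ex
  rw [Fin.addCases_right]
  rfl

@[simp] theorem ex_z (Y : Fin n → Bool) : ex Y (Fin.natAdd n 1) = false := by
  unfold ex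
  rw [Fin.addCases_right]
  rfl

/-- the same monomial -/
noncomputable def mu (m : Fin n →₀ ℕ) : Fin (n + 2) →₀ ℕ := m.mapDomain (Fin.castAdd 2)

@[simp] theorem mu_x (m : Fin n →₀ ℕ) (i : Fin n) : mu m (Fin.castAdd 2 i) = m i := by
  unfold mu
  rw [Finsupp.mapDomain_apply (Fin.castAdd_injective _ _)]

@[simp] theorem mu_t (m : Fin n →₀ ℕ) (t : Fin 2) : mu m (Fin.natAdd n t) = 0 := by
  unfold mu
  rw [Finsupp.mapDomain_of_notMem_range]
  rintro ⟨i, hi⟩
  have := congrArg Fin.val hi
  have h2 := i.2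
  simp only [Fin.val_castAdd, Fin.val_natAdd] at this
  omega

@[simp] theorem sg_yx (i : Fin n) (a : ℕ) :
    (Finsupp.single (Fin.natAdd n (0 : Fin 2)) a) (Fin.castAdd 2 i) = 0 := by
  rw [Finsupp.single_apply, if_neg]
  intro h
  have := congrArg Fin.val h
  have h2 := i.2
  simp only [Fin.val_castAdd, Fin.val_natAdd] at this
  omega

@[simp] theorem sg_zx (i : Fin n) (a : ℕ) :
    (Finsupp.single (Fin.natAdd n (1 : Fin 2)) a) (Fin.castAdd 2 i) = 0 := by
  rw [Finsupp.single_apply, if_neg]
  intro h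
  have := congrArg Fin.val h
  have h2 := i.2
  simp only [Fin.val_castAdd, Fin.val_natAdd] at this
  omega

@[simp] theorem sg_yy (a : ℕ) :
    (Finsupp.single (Fin.natAdd n (0 : Fin 2)) a) (Fin.natAdd n (0 : Fin 2)) = a := by
  rw [Finsupp.single_eq_same]

@[simp] theorem sg_zz (a : ℕ) :
    (Finsupp.single (Fin.natAdd n (1 : Fin 2)) a) (Fin.natAdd n (1 : Fin 2)) = a := by
  rw [Finsupp.single_eq_same]

@[simp] theorem sg_yz (a : ℕ) :
    (Finsupp.single (Fin.natAdd n (0 : Fin 2)) a) (Fin.natAdd n (1 : Fin 2)) = 0 := by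
  rw [Finsupp.single_apply, if_neg]
  intro h
  have := congrArg Fin.val h
  simp at this

@[simp] theorem sg_zy (a : ℕ) :
    (Finsupp.single (Fin.natAdd n (1 : Fin 2)) a) (Fin.natAdd n (0 : Fin 2)) = 0 := by
  rw [Finsupp.single_apply, if_neg]
  intro h
  have := congrArg Fin.val h
  simp at this

theorem fi_mu {Y : Fin n → Bool} {m : Fin n →₀ ℕ} (h : Fi Y m) : Fi (ex Y) (mu m) := by
  obtain ⟨h1, h2, h3⟩ := h
  refine ⟨fun j => ?_, ?_, ?_⟩
  · refine Fin.addCases (fun i => ?_) (fun t => ?_) j
    · rw [mu_x]; exact h1 i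
    · rw [mu_t]; exact zero_le_one
  · rw [Fin.sum_univ_add]
    simpa using h2
  · rw [Fin.sum_univ_add]
    simpa using h3

theorem ra_mu {Y : Fin n → Bool} {m : Fin n →₀ ℕ} (h : Ra Y m) : Ra (ex Y) (mu m) := by
  intro j
  refine Fin.addCases (fun i hi => ?_) (fun t _ => ?_) j
  · rw [mu_x]
    rw [ex_x] at hi
    exact h i hi
  · rw [mu_t]

theorem wt_mu (m : Fin n →₀ ℕ) : wt (mu m) = wt m := by
  unfold wt
  rw [Fin.sum_univ_add, Fin.sum_univ_add]
  simp

/-- the monomial `y z` is final -/
theorem fi_yz (Y : Fin n → Bool) : Fi (ex Y) (Finsupp.single (Fin.natAdd n 0) 1 +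
    Finsupp.single (Fin.natAdd n 1) 1) := by
  refine ⟨fun j => ?_, ?_, ?_⟩
  · refine Fin.addCases (fun i => ?_) (fun t => ?_) j
    · simp
    · fin_cases t <;> simp
  · rw [Fin.sum_univ_add]
    simp
  · rw [Fin.sum_univ_add]
    simp

/-- the monomial `y p` is final -/
theorem fi_yp {Y : Fin n → Bool} {r : Fin n →₀ ℕ} (h0 : Ra Y r) (h1 : ∀ i, r i ≤ 1)
    (h2 : ∑ i, r i ≤ 2) : Fi (ex Y) (Finsupp.single (Fin.natAdd n 0) 1 + mu r) := by
  refine ⟨fun j => ?_, ?_, ?_⟩
  · refine Fin.addCases (fun i => ?_) (fun t => ?_) j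
    · simp [h1 i]
    · fin_cases t <;> simp
  · rw [Fin.sum_univ_add]
    have h3 : ∑ i, (if Y i then r i else 0) = 0 :=
      Finset.sum_eq_zero fun i _ => by
        split_ifs with h
        · exact h0 i h
        · rfl
    simp [h3]
  · rw [Fin.sum_univ_add]
    have h3 : ∑ i, (if Y i then 0 else r i) ≤ ∑ i, r i :=
      Finset.sum_le_sum fun i _ => by
        split_ifs with h
        · exact Nat.zero_le _
        · exact le_rfl
    simpa using h3.trans h2

/-- the monomial `M z` -/
theorem ra_mz {Y : Fin n → Bool} {m : Fin n →₀ ℕ} (h0 : Ra Y m) :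
    Ra (ex Y) (Finsupp.single (Fin.natAdd n 1) 1 + mu m) := by
  intro j
  refine Fin.addCases (fun i hi => ?_) (fun t => ?_) j
  · rw [ex_x] at hi
    simp [h0 i hi]
  · fin_cases t <;> simp

theorem wt_mz (m : Fin n →₀ ℕ) : wt (Finsupp.single (Fin.natAdd n (1 : Fin 2)) 1 + mu m) =
    ∑ i, (m i - 1) + (∑ i, m i - 1) + 1 := by
  unfold wt
  rw [Fin.sum_univ_add, Fin.sum_univ_add]
  simp

theorem fi_of_wt {Y : Fin n → Bool} {m : Fin n →₀ ℕ} (h0 : Ra Y m) (h : wt m ≤ 1) : Fi Y m := by
  unfold wt at h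
  have h1 : ∑ i, (m i - 1) = 0 := by omega
  have h2 : ∑ i, m i ≤ 2 := by omega
  refine ⟨fun i => ?_, ?_, ?_⟩
  · have := (Finset.sum_eq_zero_iff.1 h1) i (Finset.mem_univ _)
    omega
  · have h3 : ∑ i, (if Y i then m i else 0) = 0 :=
      Finset.sum_eq_zero fun i _ => by
        split_ifs with h
        · exact h0 i h
        · rfl
    rw [h3]
    exact zero_le_one
  · have h3 : ∑ i, (if Y i then 0 else m i) ≤ ∑ i, m i :=
      Finset.sum_le_sum fun i _ => by
        split_ifs with h
        · exact Nat.zero_le _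
        · exact le_rfl
    exact h3.trans h2

/-- **The choice of the factor `p`.** -/
theorem choose {Y : Fin n → Bool} {m : Fin n →₀ ℕ} (h0 : Ra Y m) (h : 1 < wt m) :
    ∃ a r : Fin n →₀ ℕ, m = a + r ∧ a ≠ 0 ∧ r ≠ 0 ∧ Ra Y a ∧ Ra Y r ∧ (∀ i, r i ≤ 1) ∧
      ∑ i, r i ≤ 2 ∧ wt (Finsupp.single (Fin.natAdd n (1 : Fin 2)) 1 + mu a) < wt m := by
  by_cases h1 : ∃ i, 2 ≤ m i
  · obtain ⟨i, hi⟩ := h1
    have e : m = (m - Finsupp.single i 1) + Finsupp.single i 1 := by
      ext j
      rw [Finsupp.add_apply, Finsupp.tsub_apply, Finsupp.single_apply]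
      split_ifs with h
      · subst h; omega
      · omega
    refine ⟨m - Finsupp.single i 1, Finsupp.single i 1, e, ?_, ?_, ?_, ?_, ?_, ?_, ?_⟩
    · intro h
      have := DFunLike.congr_fun h i
      rw [Finsupp.tsub_apply, Finsupp.single_eq_same, Finsupp.coe_zero, Pi.zero_apply] at this
      omega
    · exact Finsupp.single_ne_zero.2 one_ne_zero
    · intro j hj
      rw [Finsupp.tsub_apply, h0 j hj, Nat.zero_sub]
    · intro j hj
      rw [Finsupp.single_apply, if_neg]
      rintro rfl
      rw [h0 _ hj] at hi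
      omega
    · intro j
      rw [Finsupp.single_apply]
      split_ifs <;> omega
    · rw [← Finsupp.degree_eq_sum, Finsupp.degree_single]
      omega
    · rw [wt_mz]
      unfold wt
      have h2 : ∑ j, (m j - 1) = ∑ j, ((m - Finsupp.single i 1 : Fin n →₀ ℕ) j - 1) + 1 := by
        rw [← Finset.add_sum_erase _ _ (Finset.mem_univ i),
          ← Finset.add_sum_erase Finset.univ
            (fun j => (m - Finsupp.single i 1 : Fin n →₀ ℕ) j - 1) (Finset.mem_univ i)]
        have h3 : ∀ j ∈ Finset.univ.erase i,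
            (m - Finsupp.single i 1 : Fin n →₀ ℕ) j - 1 = m j - 1 := by
          intro j hj
          rw [Finsupp.tsub_apply, Finsupp.single_apply, if_neg (Finset.ne_of_mem_erase hj).symm,
            Nat.sub_zero]
        rw [Finset.sum_congr rfl h3, Finsupp.tsub_apply, Finsupp.single_eq_same]
        omega
      have h4 : ∑ j, m j = ∑ j, (m - Finsupp.single i 1 : Fin n →₀ ℕ) j + 1 := by
        conv_lhs => rw [e]
        simp only [Finsupp.add_apply, Finset.sum_add_distrib]
        congr 1
        rw [← Finsupp.degree_eq_sum, Finsupp.degree_single]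
      have h5 : m i ≤ ∑ j, m j := Finset.single_le_sum (fun _ _ => Nat.zero_le _)
        (Finset.mem_univ i)
      omega
  · push Not at h1
    have h2 : ∑ i, (m i - 1) = 0 := Finset.sum_eq_zero fun i _ => by
      have := h1 i
      omega
    unfold wt at h
    rw [h2] at h
    have h3 : 3 ≤ ∑ i, m i := by omega
    have h4 : ∑ i, m i = (Finset.univ.filter fun i => m i = 1).card := by
      rw [Finset.card_filter]
      refine Finset.sum_congr rfl fun i _ => ?_
      have := h1 i
      split_ifs <;> omega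
    rw [h4] at h3
    obtain ⟨u, hu, v, hv, huv⟩ := Finset.one_lt_card.1 (by omega :
      1 < (Finset.univ.filter fun i => m i = 1).card)
    rw [Finset.mem_filter] at hu hv
    have e : m = (m - (Finsupp.single u 1 + Finsupp.single v 1)) +
        (Finsupp.single u 1 + Finsupp.single v 1) := by
      ext j
      rw [Finsupp.add_apply, Finsupp.tsub_apply, Finsupp.add_apply, Finsupp.single_apply,
        Finsupp.single_apply]
      by_cases h5 : u = j
      · subst h5
        rw [if_pos rfl, if_neg huv.symm, hu.2]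
        rfl
      · rw [if_neg h5]
        by_cases h6 : v = j
        · subst h6
          rw [if_pos rfl, hv.2]
          rfl
        · rw [if_neg h6]
          omega
    have h6 : ∑ j, m j =
        ∑ j, (m - (Finsupp.single u 1 + Finsupp.single v 1) : Fin n →₀ ℕ) j + 2 := by
      conv_lhs => rw [e]
      simp only [Finsupp.add_apply, Finset.sum_add_distrib]
      rw [add_right_inj, ← Finsupp.degree_eq_sum, ← Finsupp.degree_eq_sum,
        Finsupp.degree_single, Finsupp.degree_single]
    refine ⟨m - (Finsupp.single u 1 + Finsupp.single v 1),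
      Finsupp.single u 1 + Finsupp.single v 1, e, ?_, ?_, ?_, ?_, ?_, ?_, ?_⟩
    · intro h
      rw [h] at h6
      simp at h6
      omega
    · intro h
      have := DFunLike.congr_fun h u
      simp at this
    · intro j hj
      rw [Finsupp.tsub_apply, h0 j hj, Nat.zero_sub]
    · intro j hj
      have h7 := h0 j hj
      have h8 : ¬ u = j := by
        rintro rfl
        omega
      have h9 : ¬ v = j := by
        rintro rfl
        omega
      rw [Finsupp.add_apply, Finsupp.single_apply, Finsupp.single_apply, if_neg h8, if_neg h9]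
      rfl
    · intro j
      rw [Finsupp.add_apply, Finsupp.single_apply, Finsupp.single_apply]
      by_cases h7 : u = j
      · rw [if_pos h7, if_neg (fun h8 => huv (h7.trans h8.symm))]
        exact le_rfl
      · rw [if_neg h7]
        split_ifs <;> omega
    · simp only [Finsupp.add_apply, Finset.sum_add_distrib]
      rw [← Finsupp.degree_eq_sum, ← Finsupp.degree_eq_sum,
        Finsupp.degree_single, Finsupp.degree_single]
    · rw [wt_mz]
      unfold wt
      have h7 : ∑ j, ((m - (Finsupp.single u 1 + Finsupp.single v 1) : Fin n →₀ ℕ) j - 1) = 0 :=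
        Finset.sum_eq_zero fun i _ => by
          have := h1 i
          rw [Finsupp.tsub_apply]
          omega
      rw [h7, h2]
      omega

/-! ### polynomials -/

/-- the polynomial -/
noncomputable def poly (G : MvPolynomial (Fin n) k) (L : List ((Fin n →₀ ℕ) × k)) :
    MvPolynomial (Fin n) k := G + (L.map fun q => monomial q.1 q.2).sum

/-- the list -/
noncomputable def up (L : List ((Fin n →₀ ℕ) × k)) : List ((Fin (n + 2) →₀ ℕ) × k) :=
  L.map fun q => (mu q.1, q.2)

theorem rename_list (L : List ((Fin n →₀ ℕ) × k)) :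
    rename (Fin.castAdd 2) (L.map fun q => monomial q.1 q.2).sum =
      ((up L).map fun q => monomial q.1 q.2).sum := by
  induction L with
  | nil => simp [up]
  | cons q L ih =>
    rw [List.map_cons, List.sum_cons, map_add, ih, rename_monomial]
    rfl

/-- the total weight -/
def wl (L : List ((Fin n →₀ ℕ) × k)) : ℕ := (L.map fun q => wt q.1).sum

omit [Field k] in
theorem wl_up (L : List ((Fin n →₀ ℕ) × k)) : wl (up L) = wl L := by
  unfold wl up
  rw [List.map_map]
  congr 1
  refine List.map_congr_left fun q _ => ?_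
  exact wt_mu q.1

omit [Field k] in
theorem ra_up {Y : Fin n → Bool} {L : List ((Fin n →₀ ℕ) × k)} (h : ∀ q ∈ L, Ra Y q.1) :
    ∀ q ∈ up L, Ra (ex Y) q.1 := by
  intro q hq
  obtain ⟨q0, h1, rfl⟩ := List.mem_map.1 hq
  exact ra_mu (h q0 h1)

theorem fi_add {Y : Fin n → Bool} {G H : MvPolynomial (Fin n) k} (h1 : ∀ m ∈ G.support, Fi Y m)
    (h2 : ∀ m ∈ H.support, Fi Y m) : ∀ m ∈ (G + H).support, Fi Y m := by
  intro m hm
  classical
  rcases Finset.mem_union.1 (support_add hm) with h | h
  · exact h1 m h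
  · exact h2 m h

theorem fi_mono {Y : Fin n → Bool} {a : Fin n →₀ ℕ} (h : Fi Y a) (c : k) :
    ∀ m ∈ (monomial a c : MvPolynomial (Fin n) k).support, Fi Y m := by
  intro m hm
  classical
  have := Finset.mem_singleton.1 (support_monomial_subset hm)
  rwa [this]

theorem fi_rename {Y : Fin n → Bool} {G : MvPolynomial (Fin n) k}
    (h1 : ∀ m ∈ G.support, Fi Y m) :
    ∀ m ∈ (rename (Fin.castAdd 2) G).support, Fi (ex Y) m := by
  intro m hm
  classical
  rw [support_rename_of_injective (Fin.castAdd_injective _ _)] at hm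
  obtain ⟨m0, h2, rfl⟩ := Finset.mem_image.1 hm
  exact fi_mu (h1 m0 h2)

theorem yz_eq : (X (Fin.natAdd n 0) * X (Fin.natAdd n 1) : MvPolynomial (Fin (n + 2)) k) =
    monomial (Finsupp.single (Fin.natAdd n 0) 1 + Finsupp.single (Fin.natAdd n 1) 1) 1 := by
  rw [X, X, monomial_mul, one_mul]

/-- `f + y z` -/
theorem addyz_poly (G : MvPolynomial (Fin n) k) (L : List ((Fin n →₀ ℕ) × k)) :
    addyz (poly G L) = poly (rename (Fin.castAdd 2) G + monomial (Finsupp.single (Fin.natAdd n 0) 1 +
      Finsupp.single (Fin.natAdd n 1) 1) 1) (up L) := by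
  unfold addyz poly
  rw [map_add, rename_list, yz_eq]
  ring

/-- the new polynomial -/
theorem nf_poly (G : MvPolynomial (Fin n) k) (L : List ((Fin n →₀ ℕ) × k))
    (a r : Fin n →₀ ℕ) (c : k) :
    nf (poly G ((a + r, c) :: L)) (monomial a c) (monomial r 1) =
      poly (rename (Fin.castAdd 2) G + monomial (Finsupp.single (Fin.natAdd n 0) 1 +
        Finsupp.single (Fin.natAdd n 1) 1) 1 +
        monomial (Finsupp.single (Fin.natAdd n 0) 1 + mu r) (-1))
        ((Finsupp.single (Fin.natAdd n 1) 1 + mu a, c) :: up L) := by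
  unfold nf poly
  rw [map_add, List.map_cons, List.map_cons, List.sum_cons, List.sum_cons, map_add, rename_list,
    rename_monomial, rename_monomial, rename_monomial, ← yz_eq]
  have h1 : (monomial (Finsupp.mapDomain (Fin.castAdd 2) (a + r)) c :
      MvPolynomial (Fin (n + 2)) k) = monomial (mu a) c * monomial (mu r) 1 := by
    rw [monomial_mul, mul_one, Finsupp.mapDomain_add]
    rfl
  have h2 : (monomial (Finsupp.single (Fin.natAdd n 0) 1 + mu r) (-1) :
      MvPolynomial (Fin (n + 2)) k) = - (X (Fin.natAdd n 0) * monomial (mu r) 1) := by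
    rw [X, monomial_mul, one_mul, ← map_neg]
  have h3 : (monomial (Finsupp.single (Fin.natAdd n 1) 1 + mu a) c :
      MvPolynomial (Fin (n + 2)) k) = X (Fin.natAdd n 1) * monomial (mu a) c := by
    rw [X, monomial_mul, one_mul]
  show _ + (monomial (Finsupp.mapDomain (Fin.castAdd 2) (a + r)) c + _) +
    (_ + monomial (mu a) c) * (_ - monomial (mu r) 1) = _ + (monomial (Finsupp.single
      (Fin.natAdd n 1) 1 + mu a) c + _)
  rw [h1, h2, h3]
  ring

end

end Pool.Agent.K4H43.CR
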