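import Pool.Agent.K4H43.CR.Comb

/-!
# The reduction to cubic polynomials
-/

set_option autoImplicit false

namespace Pool.Agent.K4H43.CR

open MvPolynomial Pool.Agent.W428.MOT Pool.Agent.Y229.MS
open Pool.Agent.H628R4.TP (IsBFunction)

section
variable {k : Type} [Field k] [Algebra k ℂ] (K : Type) [Field K] [Algebra k K]

/-- the refined statement for `f` at the `K`-point `x` with the set of pairs `S` -/
def Ref {n : ℕ} (f : MvPolynomial (Fin n) k) (x : Fin n → K) (S : Set (ℤ × ℤ)) : Prop :=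
  S.Finite ∧
  (∀ p ∈ S, 0 < p.2 ∧ ∀ c : Polynomial ℂ,
    IsBFunction (map (algebraMap k ℂ) f) ((Polynomial.X + 1) * c) →
      c.eval ((p.1 : ℂ) / (p.2 : ℂ)) = 0) ∧
  fst' K * zeta (map (algebraMap k K) f) x ∈ ratRing K S

theorem deg_map {L : Type} [Field L] [Algebra k L] {n : ℕ} {f : MvPolynomial (Fin n) k}
    (hf : f.totalDegree ≠ 0) : (map (algebraMap k L) f).totalDegree ≠ 0 := by
  rwa [totalDegree, support_map_of_injective f (algebraMap k L).injective, ← totalDegree]

variable {K}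

theorem ref_step {n : ℕ} {f : MvPolynomial (Fin n) k} (hf : f.totalDegree ≠ 0)
    (M p : MvPolynomial (Fin n) k) (x : Fin n → K) (hx : eval x (map (algebraMap k K) f) = 0)
    {S1 S2 : Set (ℤ × ℤ)}
    (h1 : Ref K (nf f M p)
      (tp (psi (map (algebraMap k K) M) (map (algebraMap k K) p)) (app x)) S1)
    (h2 : Ref K (addyz (nf f M p))
      (app (tp (psi (map (algebraMap k K) M) (map (algebraMap k K) p)) (app x))) S2) :
    Ref K f x (shn 1 S1 ∪ shn 2 S2) := by
  have : CharZero k := (algebraMap k ℂ).charZero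
  have : CharZero K := charZero_of_injective_algebraMap (algebraMap k K).injective
  obtain ⟨a1, b1, c1⟩ := h1
  obtain ⟨a2, b2, c2⟩ := h2
  have hfC : (map (algebraMap k ℂ) f).totalDegree ≠ 0 := deg_map hf
  refine ⟨?_, ?_, ?_⟩
  · refine Set.Finite.union ?_ ?_
    · have e : shn 1 S1 = (fun q : ℤ × ℤ => (q.1 + (1 : ℕ) * q.2, q.2)) '' S1 := by
        ext q
        constructor
        · rintro ⟨q0, h, e⟩; exact ⟨q0, h, e.symm⟩
        · rintro ⟨q0, h, e⟩; exact ⟨q0, h, e.symm⟩
      rw [e]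
      exact a1.image _
    · have e : shn 2 S2 = (fun q : ℤ × ℤ => (q.1 + (2 : ℕ) * q.2, q.2)) '' S2 := by
        ext q
        constructor
        · rintro ⟨q0, h, e⟩; exact ⟨q0, h, e.symm⟩
        · rintro ⟨q0, h, e⟩; exact ⟨q0, h, e.symm⟩
      rw [e]
      exact a2.image _
  · have k1 : ∀ c : Polynomial ℂ,
        IsBFunction (map (algebraMap k ℂ) f) ((Polynomial.X + 1) * c) →
        IsBFunction (map (algebraMap k ℂ) (nf f M p))
          ((Polynomial.X + 1) * c.comp (Polynomial.X + Polynomial.C 1)) := by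
      intro c hc
      have := bf_step hfC hc (psi (map (algebraMap k ℂ) M) (map (algebraMap k ℂ) p))
      rwa [psi_addyz, ← nf_map] at this
    have k2 : ∀ c : Polynomial ℂ,
        IsBFunction (map (algebraMap k ℂ) f) ((Polynomial.X + 1) * c) →
        IsBFunction (map (algebraMap k ℂ) (addyz (nf f M p)))
          ((Polynomial.X + 1) * (c.comp (Polynomial.X + Polynomial.C 1)).comp
            (Polynomial.X + Polynomial.C 1)) := by
      intro c hc
      have := bf_step (deg_map (nf_ne f M p)) (k1 c hc) AlgEquiv.refl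
      rw [← addyz_map] at this
      exact this
    rintro q (⟨q0, h, rfl⟩ | ⟨q0, h, rfl⟩)
    · obtain ⟨h3, h4⟩ := b1 q0 h
      refine ⟨h3, fun c hc => ?_⟩
      have h5 := h4 _ (k1 c hc)
      rw [Polynomial.eval_comp] at h5
      simp only [Polynomial.eval_add, Polynomial.eval_X, Polynomial.eval_C] at h5
      have h6 : (q0.2 : ℂ) ≠ 0 := Int.cast_ne_zero.2 h3.ne'
      have h7 : (((q0.1 + ((1 : ℕ) : ℤ) * q0.2 : ℤ)) : ℂ) / (q0.2 : ℂ) =
          (q0.1 : ℂ) / (q0.2 : ℂ) + 1 := by
        push_cast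
        field_simp
      show c.eval ((((q0.1 + ((1 : ℕ) : ℤ) * q0.2 : ℤ)) : ℂ) / (q0.2 : ℂ)) = 0
      rw [h7]
      exact h5
    · obtain ⟨h3, h4⟩ := b2 q0 h
      refine ⟨h3, fun c hc => ?_⟩
      have h5 := h4 _ (k2 c hc)
      rw [Polynomial.eval_comp, Polynomial.eval_comp] at h5
      simp only [Polynomial.eval_add, Polynomial.eval_X, Polynomial.eval_C] at h5
      have h6 : (q0.2 : ℂ) ≠ 0 := Int.cast_ne_zero.2 h3.ne'
      have h7 : (((q0.1 + ((2 : ℕ) : ℤ) * q0.2 : ℤ)) : ℂ) / (q0.2 : ℂ) =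
          (q0.1 : ℂ) / (q0.2 : ℂ) + 1 + 1 := by
        push_cast
        field_simp
        ring
      show c.eval ((((q0.1 + ((2 : ℕ) : ℤ) * q0.2 : ℤ)) : ℂ) / (q0.2 : ℂ)) = 0
      rw [h7]
      exact h5
  · have hx0 : eval (app x) (addyz (map (algebraMap k K) f)) = 0 := by
      rw [eval_addyz, hx]
    have hx1 : eval (app (app x)) (addyz (addyz (map (algebraMap k K) f))) = 0 := by
      rw [eval_addyz, hx0]
    refine local_step _ x hx (fun p hp => (b1 p hp).1) (fun p hp => (b2 p hp).1) ?_ ?_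
    · rw [nf_map, ← psi_addyz, zeta_point' _ _ _ hx0] at c1
      exact c1
    · rw [addyz_map, nf_map, ← psi_addyz, ← ext_addyz, ← tp_ext, zeta_point' _ _ _ hx1] at c2
      exact c2

/-- cubic polynomials, linear in some of the variables and quadratic in the others, with
squarefree monomials -/
def Cub {n : ℕ} (F : MvPolynomial (Fin n) k) : Prop :=
  ∃ Y : Fin n → Bool, ∀ m ∈ F.support, Fi Y m

/-- **The induction.** -/
theorem main (T : ∀ n : ℕ, (Fin n → K) → Prop)
    (hT1 : ∀ (n : ℕ) (x : Fin n → K), T n x → T (n + 2) (app x))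
    (hT2 : ∀ (n : ℕ) (x : Fin n → K) (a r : Fin n →₀ ℕ) (c : k), a ≠ 0 → r ≠ 0 → T n x →
      T (n + 2) (tp (psi (map (algebraMap k K) (monomial a c))
        (map (algebraMap k K) (monomial r 1))) (app x)))
    (H : ∀ (n : ℕ) (F : MvPolynomial (Fin n) k) (x : Fin n → K), F.totalDegree ≠ 0 → Cub F →
      T n x → eval x (map (algebraMap k K) F) = 0 → ∃ S, Ref K F x S) (N : ℕ) :
    ∀ (n : ℕ) (Y : Fin n → Bool) (G : MvPolynomial (Fin n) k) (L : List ((Fin n →₀ ℕ) × k))
      (x : Fin n → K), (∀ m ∈ G.support, Fi Y m) → (∀ q ∈ L, Ra Y q.1) → wl L ≤ N →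
      (poly G L).totalDegree ≠ 0 → T n x → eval x (map (algebraMap k K) (poly G L)) = 0 →
      ∃ S, Ref K (poly G L) x S := by
  induction N using Nat.strong_induction_on with
  | _ N ih =>
  intro n Y G L x hG hL hN hd hT hx
  rcases L with _ | ⟨⟨m, c⟩, L⟩
  · have e : poly G ([] : List ((Fin n →₀ ℕ) × k)) = G := by
      unfold poly
      rw [List.map_nil, List.sum_nil, add_zero]
    rw [e] at hd hx ⊢
    exact H n G x hd ⟨Y, hG⟩ hT hx
  have hm : Ra Y m := hL _ List.mem_cons_self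
  have hL' : ∀ q ∈ L, Ra Y q.1 := fun q hq => hL q (List.mem_cons_of_mem _ hq)
  have hw : wl ((m, c) :: L) = wt m + wl L := by
    unfold wl
    rw [List.map_cons, List.sum_cons]
  have hw1 : 1 ≤ wt m := by
    unfold wt
    omega
  rw [hw] at hN
  by_cases h1 : wt m ≤ 1
  · have e : poly G ((m, c) :: L) = poly (G + monomial m c) L := by
      unfold poly
      rw [List.map_cons, List.sum_cons]
      ring
    rw [e] at hd hx ⊢
    exact ih (wl L) (by omega) n Y (G + monomial m c) L x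
      (fi_add hG (fi_mono (fi_of_wt hm h1) c)) hL' le_rfl hd hT hx
  · obtain ⟨a, r, rfl, ha, hr, ha', hr', hr1, hr2, hlt⟩ := choose hm (by omega)
    obtain ⟨x', hx'⟩ : ∃ x' : Fin (n + 2) → K, x' =
      tp (psi (map (algebraMap k K) (monomial a c)) (map (algebraMap k K) (monomial r 1)))
        (app x) := ⟨_, rfl⟩
    have hxe : eval x' (map (algebraMap k K)
        (nf (poly G ((a + r, c) :: L)) (monomial a c) (monomial r 1))) = 0 := by
      rw [hx', nf_map, ← psi_addyz, eval_tp, AlgEquiv.symm_apply_apply, eval_addyz, hx]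
    have hTx' : T (n + 2) x' := by
      rw [hx']
      exact hT2 n x a r c ha hr hT
    have hG1 : ∀ q ∈ (rename (Fin.castAdd 2) G + monomial (Finsupp.single (Fin.natAdd n 0) 1 +
        Finsupp.single (Fin.natAdd n 1) 1) 1 +
        monomial (Finsupp.single (Fin.natAdd n 0) 1 + mu r) (-1) :
          MvPolynomial (Fin (n + 2)) k).support, Fi (ex Y) q :=
      fi_add (fi_add (fi_rename hG) (fi_mono (fi_yz Y) 1)) (fi_mono (fi_yp hr' hr1 hr2) (-1))
    have hL1 : ∀ q ∈ ((Finsupp.single (Fin.natAdd n 1) 1 + mu a, c) :: up L :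
        List ((Fin (n + 2) →₀ ℕ) × k)), Ra (ex Y) q.1 := by
      intro q hq
      rcases List.mem_cons.1 hq with rfl | hq
      · exact ra_mz ha'
      · exact ra_up hL' q hq
    have hw2 : wl ((Finsupp.single (Fin.natAdd n 1) 1 + mu a, c) :: up L :
        List ((Fin (n + 2) →₀ ℕ) × k)) < N := by
      have e : wl ((Finsupp.single (Fin.natAdd n 1) 1 + mu a, c) :: up L :
        List ((Fin (n + 2) →₀ ℕ) × k)) =
          wt (Finsupp.single (Fin.natAdd n (1 : Fin 2)) 1 + mu a) + wl (up L) := by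
        unfold wl
        rw [List.map_cons, List.sum_cons]
      rw [e, wl_up]
      omega
    obtain ⟨S1, hS1⟩ := ih _ hw2 (n + 2) (ex Y) _ _ x' hG1 hL1 le_rfl
      (by rw [← nf_poly]; exact nf_ne _ _ _) hTx' (by rw [← nf_poly]; exact hxe)
    rw [← nf_poly] at hS1
    obtain ⟨S2, hS2⟩ := ih _ hw2 (n + 2 + 2) (ex (ex Y)) _ _ (app x')
      (fi_add (fi_rename hG1) (fi_mono (fi_yz (ex Y)) 1)) (ra_up hL1) (wl_up _).le
      (by rw [← addyz_poly]; exact addyz_ne _) (hT1 _ _ hTx')
      (by rw [← addyz_poly, addyz_map, eval_addyz, ← nf_poly]; exact hxe)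
    rw [← addyz_poly, ← nf_poly] at hS2
    rw [hx'] at hS1 hS2
    exact ⟨_, ref_step hd _ _ x hx hS1 hS2⟩

/-- every polynomial is the polynomial of a list -/
theorem exists_list {n : ℕ} (f : MvPolynomial (Fin n) k) :
    ∃ L : List ((Fin n →₀ ℕ) × k), poly 0 L = f := by
  induction f using MvPolynomial.induction_on' with
  | monomial u a =>
    refine ⟨[(u, a)], ?_⟩
    unfold poly
    rw [List.map_cons, List.map_nil, List.sum_cons, List.sum_nil]
    ring
  | add p q hp hq =>
    obtain ⟨L1, h1⟩ := hp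
    obtain ⟨L2, h2⟩ := hq
    refine ⟨L1 ++ L2, ?_⟩
    rw [← h1, ← h2]
    unfold poly
    rw [List.map_append, List.sum_append]
    ring

theorem main' (T : ∀ n : ℕ, (Fin n → K) → Prop)
    (hT1 : ∀ (n : ℕ) (x : Fin n → K), T n x → T (n + 2) (app x))
    (hT2 : ∀ (n : ℕ) (x : Fin n → K) (a r : Fin n →₀ ℕ) (c : k), a ≠ 0 → r ≠ 0 → T n x →
      T (n + 2) (tp (psi (map (algebraMap k K) (monomial a c))
        (map (algebraMap k K) (monomial r 1))) (app x)))
    (H : ∀ (n : ℕ) (F : MvPolynomial (Fin n) k) (x : Fin n → K), F.totalDegree ≠ 0 → Cub F →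
      T n x → eval x (map (algebraMap k K) F) = 0 → ∃ S, Ref K F x S)
    (n : ℕ) (f : MvPolynomial (Fin n) k) (hf : f.totalDegree ≠ 0) (x : Fin n → K) (hT : T n x)
    (hx : eval x (map (algebraMap k K) f) = 0) : ∃ S, Ref K f x S := by
  obtain ⟨L, rfl⟩ := exists_list f
  exact main T hT1 hT2 H (wl L) n (fun _ => false) 0 L x (fun m hm => by simp at hm)
    (fun q _ i hi => by simp at hi) le_rfl hf hT hx

/-- the origin goes to the origin -/
theorem origin_app (n : ℕ) : app (0 : Fin n → K) = 0 := by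
  funext j
  refine Fin.addCases (fun i => ?_) (fun t => ?_) j
  · rw [app_cast]; rfl
  · rw [app_nat]; rfl

theorem origin_tp (n : ℕ) (a r : Fin n →₀ ℕ) (c : k) (ha : a ≠ 0) (hr : r ≠ 0) :
    tp (psi (map (algebraMap k K) (monomial a c)) (map (algebraMap k K) (monomial r 1)))
      (app (0 : Fin n → K)) = 0 := by
  have h0 : ∀ (u : Fin n →₀ ℕ) (c : K), u ≠ 0 → eval (0 : Fin n → K) (monomial u c) = 0 := by
    intro u c hu
    rw [eval_monomial]
    obtain ⟨i, hi⟩ := Finsupp.ne_iff.1 hu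
    rw [Finsupp.prod, Finset.prod_eq_zero (Finsupp.mem_support_iff.2 hi), mul_zero]
    rw [Pi.zero_apply, zero_pow hi]
  have h1 : ∀ p : MvPolynomial (Fin n) K, eval (app (0 : Fin n → K))
      (rename (Fin.castAdd 2) p) = eval 0 p := by
    intro p
    rw [eval_rename]
    congr 2
    funext i
    exact app_cast _ i
  funext j
  refine Fin.addCases (fun i => ?_) (fun t => ?_) j
  · show eval _ ((psi _ _).symm (X (Fin.castAdd 2 i))) = 0
    rw [psi_symm_apply, fw_x, eval_X, app_cast]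
    rfl
  · fin_cases t
    · show eval _ ((psi _ _).symm (X (Fin.natAdd n 0))) = 0
      rw [psi_symm_apply, fw_y, map_add, eval_X, app_nat, h1, map_neg, map_monomial, h0 _ _ ha]
      simp
    · show eval _ ((psi _ _).symm (X (Fin.natAdd n 1))) = 0
      rw [psi_symm_apply, fw_z, map_sub, eval_X, app_nat, h1, map_neg, map_monomial, h0 _ _ hr]
      simp

end

end Pool.Agent.K4H43.CR
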