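import Pool.Agent.K4H43.CR.Step
import Pool.Agent.K4H43.CR.BF

/-!
# The automorphisms `y ↦ y + M`, `z ↦ z - p`
-/

set_option autoImplicit false

namespace Pool.Agent.K4H43.CR

open MvPolynomial Pool.Agent.W428.MOT Pool.Agent.Y229.MS

section
variable {K : Type} [Field K] {n : ℕ}

/-- `y ↦ y + M`, `z ↦ z - p` -/
noncomputable def fw (M p : MvPolynomial (Fin n) K) :
    MvPolynomial (Fin (n + 2)) K →ₐ[K] MvPolynomial (Fin (n + 2)) K :=
  aeval (Fin.addCases (fun i : Fin n => X (Fin.castAdd 2 i)) (fun t : Fin 2 =>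
    if t = 0 then X (Fin.natAdd n 0) + rename (Fin.castAdd 2) M
      else X (Fin.natAdd n 1) - rename (Fin.castAdd 2) p))

theorem fw_x (M p : MvPolynomial (Fin n) K) (i : Fin n) :
    fw M p (X (Fin.castAdd 2 i)) = X (Fin.castAdd 2 i) := by
  unfold fw
  rw [aeval_X, Fin.addCases_left]

theorem fw_y (M p : MvPolynomial (Fin n) K) :
    fw M p (X (Fin.natAdd n 0)) = X (Fin.natAdd n 0) + rename (Fin.castAdd 2) M := by
  unfold fw
  rw [aeval_X, Fin.addCases_right, if_pos rfl]

theorem fw_z (M p : MvPolynomial (Fin n) K) :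
    fw M p (X (Fin.natAdd n 1)) = X (Fin.natAdd n 1) - rename (Fin.castAdd 2) p := by
  unfold fw
  rw [aeval_X, Fin.addCases_right, if_neg (by decide)]

theorem fw_rename (M p g : MvPolynomial (Fin n) K) :
    fw M p (rename (Fin.castAdd 2) g) = rename (Fin.castAdd 2) g := by
  have h : (fw M p).comp (rename (Fin.castAdd 2)) = rename (Fin.castAdd 2) := by
    refine MvPolynomial.algHom_ext fun i => ?_
    rw [AlgHom.comp_apply, rename_X, fw_x]
  exact congrArg (fun φ : MvPolynomial (Fin n) K →ₐ[K] MvPolynomial (Fin (n + 2)) K => φ g) h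

theorem fw_comp (M p : MvPolynomial (Fin n) K) :
    (fw M p).comp (fw (-M) (-p)) = AlgHom.id K _ := by
  refine MvPolynomial.algHom_ext fun j => ?_
  refine Fin.addCases (fun i => ?_) (fun t => ?_) j
  · rw [AlgHom.comp_apply, fw_x, fw_x, AlgHom.id_apply]
  · fin_cases t
    · show fw M p (fw (-M) (-p) (X (Fin.natAdd n 0))) = X (Fin.natAdd n 0)
      rw [fw_y, map_add, fw_y, fw_rename, map_neg]
      ring
    · show fw M p (fw (-M) (-p) (X (Fin.natAdd n 1))) = X (Fin.natAdd n 1)
      rw [fw_z, map_sub, fw_z, fw_rename, map_neg]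
      ring

/-- the automorphism -/
noncomputable def psi (M p : MvPolynomial (Fin n) K) :
    MvPolynomial (Fin (n + 2)) K ≃ₐ[K] MvPolynomial (Fin (n + 2)) K :=
  AlgEquiv.ofAlgHom (fw M p) (fw (-M) (-p)) (fw_comp M p) (by
    have := fw_comp (-M) (-p)
    rwa [neg_neg, neg_neg] at this)

theorem psi_apply (M p : MvPolynomial (Fin n) K) (g : MvPolynomial (Fin (n + 2)) K) :
    psi M p g = fw M p g := rfl

theorem psi_symm_apply (M p : MvPolynomial (Fin n) K) (g : MvPolynomial (Fin (n + 2)) K) :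
    (psi M p).symm g = fw (-M) (-p) g := rfl

/-- the new polynomial -/
noncomputable def nf (f M p : MvPolynomial (Fin n) K) : MvPolynomial (Fin (n + 2)) K :=
  rename (Fin.castAdd 2) f + (X (Fin.natAdd n 0) + rename (Fin.castAdd 2) M) *
    (X (Fin.natAdd n 1) - rename (Fin.castAdd 2) p)

theorem psi_addyz (f M p : MvPolynomial (Fin n) K) : psi M p (addyz f) = nf f M p := by
  rw [psi_apply]
  unfold addyz nf
  rw [map_add, map_mul, fw_rename, fw_y, fw_z]

theorem nf_map {L : Type} [Field L] (φ : K →+* L) (f M p : MvPolynomial (Fin n) K) :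
    map φ (nf f M p) = nf (map φ f) (map φ M) (map φ p) := by
  unfold nf
  rw [map_add, map_mul, map_add, map_sub, map_X, map_X, map_rename, map_rename, map_rename]

theorem addyz_map {L : Type} [Field L] (φ : K →+* L) (f : MvPolynomial (Fin n) K) :
    map φ (addyz f) = addyz (map φ f) := by
  unfold addyz
  rw [map_add, map_mul, map_X, map_X, map_rename]

/-- the extension of an automorphism -/
noncomputable def ext0 (ψ : MvPolynomial (Fin n) K →ₐ[K] MvPolynomial (Fin n) K) :
    MvPolynomial (Fin (n + 2)) K →ₐ[K] MvPolynomial (Fin (n + 2)) K :=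
  aeval (Fin.addCases (fun i : Fin n => rename (Fin.castAdd 2) (ψ (X i)))
    (fun t : Fin 2 => X (Fin.natAdd n t)))

theorem ext0_x (ψ : MvPolynomial (Fin n) K →ₐ[K] MvPolynomial (Fin n) K) (i : Fin n) :
    ext0 ψ (X (Fin.castAdd 2 i)) = rename (Fin.castAdd 2) (ψ (X i)) := by
  unfold ext0
  rw [aeval_X, Fin.addCases_left]

theorem ext0_t (ψ : MvPolynomial (Fin n) K →ₐ[K] MvPolynomial (Fin n) K) (t : Fin 2) :
    ext0 ψ (X (Fin.natAdd n t)) = X (Fin.natAdd n t) := by
  unfold ext0
  rw [aeval_X, Fin.addCases_right]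

theorem ext0_rename (ψ : MvPolynomial (Fin n) K →ₐ[K] MvPolynomial (Fin n) K)
    (g : MvPolynomial (Fin n) K) :
    ext0 ψ (rename (Fin.castAdd 2) g) = rename (Fin.castAdd 2) (ψ g) := by
  have h : (ext0 ψ).comp (rename (Fin.castAdd 2)) = (rename (Fin.castAdd 2)).comp ψ := by
    refine MvPolynomial.algHom_ext fun i => ?_
    rw [AlgHom.comp_apply, AlgHom.comp_apply, rename_X, ext0_x]
  exact congrArg (fun φ : MvPolynomial (Fin n) K →ₐ[K] MvPolynomial (Fin (n + 2)) K => φ g) h

theorem ext0_comp (φ ψ : MvPolynomial (Fin n) K →ₐ[K] MvPolynomial (Fin n) K)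
    (h : φ.comp ψ = AlgHom.id K _) : (ext0 φ).comp (ext0 ψ) = AlgHom.id K _ := by
  refine MvPolynomial.algHom_ext fun j => ?_
  refine Fin.addCases (fun i => ?_) (fun t => ?_) j
  · have h1 : φ (ψ (X i)) = X i :=
      congrArg (fun θ : MvPolynomial (Fin n) K →ₐ[K] MvPolynomial (Fin n) K => θ (X i)) h
    rw [AlgHom.comp_apply, ext0_x, ext0_rename, AlgHom.id_apply, h1, rename_X]
  · rw [AlgHom.comp_apply, ext0_t, ext0_t, AlgHom.id_apply]

/-- the extension of an automorphism -/
noncomputable def ext (ψ : MvPolynomial (Fin n) K ≃ₐ[K] MvPolynomial (Fin n) K) :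
    MvPolynomial (Fin (n + 2)) K ≃ₐ[K] MvPolynomial (Fin (n + 2)) K :=
  AlgEquiv.ofAlgHom (ext0 ψ.toAlgHom) (ext0 ψ.symm.toAlgHom)
    (ext0_comp _ _ (AlgHom.ext fun x => ψ.apply_symm_apply x))
    (ext0_comp _ _ (AlgHom.ext fun x => ψ.symm_apply_apply x))

theorem ext_addyz (ψ : MvPolynomial (Fin n) K ≃ₐ[K] MvPolynomial (Fin n) K)
    (g : MvPolynomial (Fin n) K) : ext ψ (addyz g) = addyz (ψ g) := by
  show ext0 ψ.toAlgHom (addyz g) = addyz (ψ g)
  unfold addyz
  rw [map_add, map_mul, ext0_rename, ext0_t, ext0_t]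
  rfl

/-- the image of a point -/
noncomputable def tp (ψ : MvPolynomial (Fin n) K ≃ₐ[K] MvPolynomial (Fin n) K)
    (w : Fin n → K) : Fin n → K := fun j => eval w (ψ.symm (X j))

theorem eval_tp (ψ : MvPolynomial (Fin n) K ≃ₐ[K] MvPolynomial (Fin n) K) (w : Fin n → K)
    (p : MvPolynomial (Fin n) K) : eval (tp ψ w) p = eval w (ψ.symm p) := by
  have h2 : (aeval (tp ψ w) : MvPolynomial (Fin n) K →ₐ[K] K) =
      (aeval w : MvPolynomial (Fin n) K →ₐ[K] K).comp ψ.symm.toAlgHom := by
    refine MvPolynomial.algHom_ext fun j => ?_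
    rw [aeval_X]
    rfl
  exact congrArg (fun φ : MvPolynomial (Fin n) K →ₐ[K] K => φ p) h2

theorem tp_ext (ψ : MvPolynomial (Fin n) K ≃ₐ[K] MvPolynomial (Fin n) K) (w : Fin n → K) :
    tp (ext ψ) (app w) = app (tp ψ w) := by
  funext j
  refine Fin.addCases (fun i => ?_) (fun t => ?_) j
  · rw [app_cast]
    show eval (app w) (ext0 ψ.symm.toAlgHom (X (Fin.castAdd 2 i))) = eval w (ψ.symm (X i))
    rw [ext0_x, eval_rename]
    congr 2
    funext i
    exact app_cast w i
  · rw [app_nat]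
    show eval (app w) (ext0 ψ.symm.toAlgHom (X (Fin.natAdd n t))) = 0
    rw [ext0_t, eval_X, app_nat]

/-- points and isomorphisms -/
theorem zeta_point' [CharZero K] (ψ : MvPolynomial (Fin n) K ≃ₐ[K] MvPolynomial (Fin n) K)
    (g : MvPolynomial (Fin n) K) (w : Fin n → K) (hw : eval w g = 0) :
    zeta (ψ g) (tp ψ w) = zeta g w := by
  have h2 : eval (tp ψ w) (ψ g) = 0 := by rw [eval_tp, AlgEquiv.symm_apply_apply, hw]
  rw [zeta_eq _ _ h2, zeta_eq _ _ hw, ← zeta_iso' rfl ψ g (constr_ptS w) ce_one]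
  congr 1
  ext u
  constructor
  · intro hu i
    have h4 : u = fun i => algebraMap K (AlgebraicClosure K) (tp ψ w i) := funext hu
    show aeval u (ψ (X i)) = _
    rw [h4, aeval_pt, eval_tp, AlgEquiv.symm_apply_apply, eval_X]
  · intro hu j
    have h4 : (fun i => aeval u (ψ (X i))) = fun i => algebraMap K (AlgebraicClosure K) (w i) :=
      funext hu
    have h6 : (aeval u : MvPolynomial (Fin n) K →ₐ[K] AlgebraicClosure K).comp ψ.toAlgHom =
        (aeval (fun i => algebraMap K (AlgebraicClosure K) (w i)) :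
          MvPolynomial (Fin n) K →ₐ[K] AlgebraicClosure K) := by
      refine MvPolynomial.algHom_ext fun j => ?_
      rw [aeval_X]
      exact congrFun h4 j
    have h7 : aeval u (ψ (ψ.symm (X j : MvPolynomial (Fin n) K))) =
        aeval (fun i => algebraMap K (AlgebraicClosure K) (w i)) (ψ.symm (X j)) :=
      congrArg (fun φ : MvPolynomial (Fin n) K →ₐ[K] AlgebraicClosure K => φ (ψ.symm (X j))) h6
    rw [AlgEquiv.apply_symm_apply, aeval_X] at h7
    rw [h7]
    exact aeval_pt w _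

/-- the new polynomials are not constant -/
theorem nf_ne (f M p : MvPolynomial (Fin n) K) : (nf f M p).totalDegree ≠ 0 := by
  intro h
  rw [totalDegree_eq_zero_iff_eq_C] at h
  have h1 : ∀ w : Fin (n + 2) → K, eval w (addyz f) = coeff 0 (nf f M p) := by
    intro w
    have h2 : addyz f = (psi M p).symm (nf f M p) := by
      rw [← psi_addyz, AlgEquiv.symm_apply_apply]
    rw [h2, h, ← algebraMap_eq, (psi M p).symm.commutes, algebraMap_eq, eval_C, coeff_zero_C]
  have h2 := h1 (Fin.append (0 : Fin n → K) ![1, 1])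
  have h3 := h1 (Fin.append (0 : Fin n → K) ![0, 1])
  have h4 : ∀ v : Fin 2 → K, eval (Fin.append (0 : Fin n → K) v) (addyz f) =
      eval 0 f + v 0 * v 1 := by
    intro v
    unfold addyz
    rw [map_add, map_mul, eval_X, eval_X, Fin.append_right, Fin.append_right, eval_rename]
    congr 3
    funext i
    exact Fin.append_left _ _ _
  rw [h4] at h2 h3
  have h5 := h2.trans h3.symm
  simp at h5

theorem addyz_ne (f : MvPolynomial (Fin n) K) : (addyz f).totalDegree ≠ 0 := by
  have h := nf_ne f 0 0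
  have e : nf f 0 0 = addyz f := by
    unfold nf addyz
    rw [map_zero, add_zero, sub_zero]
  rwa [e] at h

end

end Pool.Agent.K4H43.CR
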