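import Pool.Agent.Y971.MS.One
import Pool.Agent.Y366.MS.OneA
import Pool.Agent.Y812.MS.Two
import Pool.Agent.Z864.MS.Three
import Pool.Agent.Y229.MS.Step

/-!
# Local motivic zeta functions of `f`, `f + y z` and `f + y z + y' z'`
-/

set_option autoImplicit false

namespace Pool.Agent.K4H43.CR

open MvPolynomial Pool.Agent.W428.MOT Pool.Agent.Y229.MS
open Pool.Agent.W375.MG (JetG zetaG Good good_one ratRing_mono)
open Pool.Agent.W63.MTFin (mapMeas geo_mul geo_mem X_mem C_mem L_mul)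

theorem tOne : TaskONE := Pool.Agent.Y971.MS.one Pool.Agent.Y366.MS.onea

section
variable {K : Type} [Field K] {n : ℕ}

theorem constr_JetG (f : MvPolynomial (Fin n) K) {W : Set (Pt K (Fin n))} (hW : Constr W)
    {E : Set (AlgebraicClosure K)} (hE : CE E) (N : ℕ) : Constr (JetG f W E N) := by
  have h1 : IsPA (fun z : Pt K (Fin n × Fin (N + 1)) => aeval (arc z) f) :=
    IsPA.aeval (fun i z => arc z i) (fun i => isPA_arc i) f
  have h2 : Constr {z : Pt K (Fin n × Fin (N + 1)) | (fun i => z (i, 0)) ∈ W} :=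
    hW.preimage (fun z i => z (i, 0)) fun i => IsPF.coord _
  exact h2.inter ((Constr.allLt N fun j _ => Constr.eqz (h1 j)).inter (hE _ (h1 N)))

/-- the measure with values in the localised ring -/
theorem exists_meas [CharZero K] : ∃ M : Meas K (MK K),
    M.L * (((Lu K)⁻¹ : (MK K)ˣ) : MK K) = 1 ∧
    ∀ {a : ℕ} (g : MvPolynomial (Fin a) K) (V : Set (Pt K (Fin a)))
      (E : Set (AlgebraicClosure K)) (N : ℕ), PowerSeries.coeff N (zetaG g V E) =
        M.χ _ (JetG g V E N) * (((Lu K)⁻¹ : (MK K)ˣ) : MK K) ^ (a * N) := by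
  obtain ⟨M₀, hM₀⟩ := Pool.Agent.W417.MT.K0.main K
  refine ⟨mapMeas M₀ (algebraMap (K0 K) (MK K)), L_mul hM₀, fun g V E N => ?_⟩
  rw [zetaG, PowerSeries.coeff_mk, zpow_neg, zpow_natCast, ← inv_pow,
    Units.val_pow_eq_pow_val, ← hM₀]
  rfl

theorem zetaG_union [CharZero K] (f : MvPolynomial (Fin n) K) {V W : Set (Pt K (Fin n))}
    (hV : Constr V) (hW : Constr W) (hd : Disjoint V W) {E : Set (AlgebraicClosure K)}
    (hE : CE E) : zetaG f (V ∪ W) E = zetaG f V E + zetaG f W E := by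
  obtain ⟨M, -, hM⟩ := exists_meas (K := K)
  ext N
  rw [map_add, hM, hM, hM, ← add_mul, ← M.add _ _ (constr_JetG f hV hE N) (constr_JetG f hW hE N)]
  · congr 2
    ext z
    simp only [JetG, Set.mem_ofPred_eq, Set.mem_union]
    tauto
  · rw [Set.disjoint_left]
    rintro z ⟨h1, -⟩ ⟨h2, -⟩
    exact Set.disjoint_left.1 hd h1 h2

/-- isomorphic polynomials have the same zeta functions -/
theorem zeta_iso' [CharZero K] {a b : ℕ} (hab : a = b)
    (ψ : MvPolynomial (Fin a) K ≃ₐ[K] MvPolynomial (Fin b) K) (g : MvPolynomial (Fin a) K)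
    {W : Set (Pt K (Fin a))} (hW : Constr W) {E : Set (AlgebraicClosure K)} (hE : CE E) :
    zetaG (ψ g) {w | (fun i => aeval w (ψ (X i))) ∈ W} E = zetaG g W E := by
  obtain ⟨M₀, hM₀⟩ := Pool.Agent.W417.MT.K0.main K
  ext N
  have h5 : b * N = a * N := by rw [hab]
  rw [zetaG, zetaG, PowerSeries.coeff_mk, PowerSeries.coeff_mk, ← hM₀, ← hM₀,
    Pool.Agent.Z864.MS.three K _ M₀ ψ g W E hW hE N, h5]

/-- a series with coefficients `A 𝕃 ^ (-N)`, `N ≥ 1` -/
theorem fst_mem_of_geom {Z : PowerSeries (MK K)} (A : MK K)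
    (h : ∀ N : ℕ, N ≠ 0 → PowerSeries.coeff N Z = A * (((Lu K)⁻¹ : (MK K)ˣ) : MK K) ^ N) :
    fst' K * Z ∈ ratRing K ∅ := by
  set Y : MK K := (((Lu K)⁻¹ : (MK K)ˣ) : MK K) with hY
  have h1 : fst' K * Z = PowerSeries.C (PowerSeries.coeff 0 Z) +
      PowerSeries.C (Y * (A - PowerSeries.coeff 0 Z)) * PowerSeries.X := by
    unfold fst'
    rw [← hY]
    ext N
    rcases N with _ | N
    · rw [sub_mul, one_mul, mul_assoc, map_sub, map_add, PowerSeries.coeff_C_mul,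
        PowerSeries.coeff_zero_X_mul, PowerSeries.coeff_C_mul, PowerSeries.coeff_zero_X,
        PowerSeries.coeff_C, if_pos rfl]
      ring
    · rw [sub_mul, one_mul, mul_assoc, map_sub, map_add, PowerSeries.coeff_C_mul,
        PowerSeries.coeff_succ_X_mul, PowerSeries.coeff_C_mul, PowerSeries.coeff_X,
        PowerSeries.coeff_C, if_neg (Nat.succ_ne_zero N), h (N + 1) (Nat.succ_ne_zero N)]
      rcases N with _ | N
      · simp
        ring
      · rw [h (N + 1) (Nat.succ_ne_zero N), if_neg (by omega)]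
        ring
  rw [h1]
  exact (ratRing K _).add_mem (C_mem _ _) ((ratRing K _).mul_mem (C_mem _ _) (X_mem _))

/-- the part `y ≠ 0` -/
theorem part_y [CharZero K] (g : MvPolynomial (Fin n) K) {W : Set (Pt K (Fin n))}
    (hW : Constr W) {E : Set (AlgebraicClosure K)} (hE : CE E) : ∃ A : MK K, ∀ N : ℕ,
      PowerSeries.coeff N (zetaG (addyz g) (Wyz W ∩ {w | w (Fin.natAdd n 0) ≠ 0}) E) =
        A * (((Lu K)⁻¹ : (MK K)ˣ) : MK K) ^ N := by
  obtain ⟨M, hL, hM⟩ := exists_meas (K := K)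
  set Y : MK K := (((Lu K)⁻¹ : (MK K)ˣ) : MK K) with hY
  refine ⟨M.χ (Fin 1) {a | a 0 ∈ E} * (M.L - 1) * M.χ _ (Tl g W 0 0), fun N => ?_⟩
  rw [hM]
  have h1 : JetG (addyz g) (Wyz W ∩ {w | w (Fin.natAdd n 0) ≠ 0}) E N =
      JetG (addyz g) (Wyz W) E N ∩ Yi n 0 N := by
    ext z
    simp only [JetG, Yi, Set.mem_ofPred_eq, Set.mem_inter_iff, Nat.not_lt_zero,
      IsEmpty.forall_iff, implies_true, true_and]
    constructor
    · rintro ⟨⟨h1, h2⟩, h3, h4⟩
      refine ⟨⟨h1, h3, h4⟩, fun j hj => ?_⟩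
      have : j = 0 := Fin.ext hj
      rw [this]
      exact h2
    · rintro ⟨⟨h1, h3, h4⟩, h5⟩
      exact ⟨⟨h1, h5 0 rfl⟩, h3, h4⟩
  rw [h1, Pool.Agent.Y366.MS.onea K _ M g W E hW hE 0 N (Nat.zero_le N)]
  have h2 := phi_level' Pool.Agent.Y812.MS.two M Y hL g W hW 0 N (Nat.zero_le N)
  rw [mul_zero, pow_zero, mul_one] at h2
  have h4 : M.L ^ N * Y ^ N = 1 := by rw [← mul_pow, hL, one_pow]
  have h5 : Y ^ ((n + 2) * N) = Y ^ (n * N) * (Y ^ N * Y ^ N) := by
    rw [← pow_add, ← pow_add]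
    congr 1
    ring
  rw [h5]
  set t := M.χ _ (Tl g W 0 N)
  set t0 := M.χ _ (Tl g W 0 0)
  set e := M.χ (Fin 1) {a | a 0 ∈ E} * (M.L - 1)
  calc e * M.L ^ N * t * (Y ^ (n * N) * (Y ^ N * Y ^ N))
      = e * (t * Y ^ (n * N)) * (M.L ^ N * Y ^ N) * Y ^ N := by ring
    _ = e * t0 * Y ^ N := by rw [h2, h4, mul_one]

/-- the exchange of `y` and `z` -/
noncomputable def swp (n : ℕ) (K : Type) [Field K] :
    MvPolynomial (Fin (n + 2)) K ≃ₐ[K] MvPolynomial (Fin (n + 2)) K :=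
  renameEquiv K (Equiv.swap (Fin.natAdd n 0) (Fin.natAdd n 1))

theorem swp_X (i : Fin (n + 2)) : swp n K (X i) =
    X (Equiv.swap (Fin.natAdd n 0) (Fin.natAdd n 1) i) := by
  unfold swp
  rw [renameEquiv_apply, rename_X]

theorem cast_ne0 (i : Fin n) : (Fin.castAdd 2 i : Fin (n + 2)) ≠ Fin.natAdd n 0 := by
  intro h
  have := congrArg Fin.val h
  simp at this
  omega

theorem cast_ne1 (i : Fin n) : (Fin.castAdd 2 i : Fin (n + 2)) ≠ Fin.natAdd n 1 := by
  intro h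
  have := congrArg Fin.val h
  simp at this
  omega

theorem swp_addyz (g : MvPolynomial (Fin n) K) : swp n K (addyz g) = addyz g := by
  unfold swp addyz
  rw [renameEquiv_apply, map_add, map_mul, rename_X, rename_X, Equiv.swap_apply_left,
    Equiv.swap_apply_right, rename_rename, mul_comm]
  have e : (⇑(Equiv.swap (Fin.natAdd n 0) (Fin.natAdd n 1)) ∘ Fin.castAdd 2 :
      Fin n → Fin (n + 2)) = Fin.castAdd 2 := by
    funext i
    show Equiv.swap (Fin.natAdd n 0) (Fin.natAdd n 1) (Fin.castAdd 2 i) = _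
    exact Equiv.swap_apply_of_ne_of_ne (cast_ne0 i) (cast_ne1 i)
  rw [e]

theorem constr_ne (i : Fin (n + 2)) : Constr {w : Pt K (Fin (n + 2)) | w i ≠ 0} :=
  (Constr.eqz (IsPF.coord i)).not

/-- the part `z ≠ 0` -/
theorem part_z [CharZero K] (g : MvPolynomial (Fin n) K) {W : Set (Pt K (Fin n))}
    (hW : Constr W) {E : Set (AlgebraicClosure K)} (hE : CE E) : ∃ A : MK K, ∀ N : ℕ,
      PowerSeries.coeff N (zetaG (addyz g) (Wyz W ∩ {w | w (Fin.natAdd n 1) ≠ 0}) E) =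
        A * (((Lu K)⁻¹ : (MK K)ˣ) : MK K) ^ N := by
  obtain ⟨A, hA⟩ := part_y g hW hE
  refine ⟨A, fun N => ?_⟩
  rw [← hA N]
  have h1 := zeta_iso' rfl (swp n K) (addyz g) ((constr_Wyz hW).inter (constr_ne (K := K)
    (Fin.natAdd n 0))) hE
  rw [swp_addyz] at h1
  rw [← h1]
  congr 2
  ext w
  simp only [Set.mem_inter_iff, Set.mem_ofPred_eq, Wyz, swp_X, aeval_X, Equiv.swap_apply_left]
  refine and_congr_left fun _ => ?_
  have e : (fun i => w (Fin.castAdd 2 i)) = fun i : Fin n =>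
      w (Equiv.swap (Fin.natAdd n 0) (Fin.natAdd n 1) (Fin.castAdd 2 i)) := by
    funext i
    rw [Equiv.swap_apply_of_ne_of_ne (cast_ne0 i) (cast_ne1 i)]
  rw [e]

theorem coeff_zero_arc {N : ℕ} (z : Pt K (Fin n × Fin (N + 1))) (f : MvPolynomial (Fin n) K) :
    PowerSeries.coeff 0 (aeval (arc z) f) = aeval (fun i => z (i, 0)) f := by
  have h : ∀ i, PowerSeries.constantCoeff (arc z i) = z (i, 0) := by
    intro i
    rw [← PowerSeries.coeff_zero_eq_constantCoeff_apply, arc, PowerSeries.coeff_mk,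
      dif_pos (Nat.succ_pos N)]
    rfl
  rw [PowerSeries.coeff_zero_eq_constantCoeff_apply]
  induction f using MvPolynomial.induction_on with
  | C a => simp [MvPolynomial.algHom_C, PowerSeries.algebraMap_apply]
  | add p q hp hq => rw [map_add, map_add, map_add, hp, hq]
  | mul_X p i hp => rw [map_mul, map_mul, map_mul, hp, aeval_X, aeval_X, h]

/-- **The smooth points `(y, z) ≠ 0` of `g + y z`.** -/
theorem part_ne [CharZero K] (g : MvPolynomial (Fin n) K) {W : Set (Pt K (Fin n))}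
    (hW : Constr W) {E : Set (AlgebraicClosure K)} (hE : CE E) :
    fst' K * zetaG (addyz g) (Wyz W ∩ {w | ¬ (w (Fin.natAdd n 0) = 0 ∧
      w (Fin.natAdd n 1) = 0)}) E ∈ ratRing K ∅ := by
  have hV1 : Constr (Wyz W ∩ {w : Pt K (Fin (n + 2)) | w (Fin.natAdd n 0) ≠ 0}) :=
    (constr_Wyz hW).inter (constr_ne _)
  have hV2 : Constr (Wyz W ∩ {w : Pt K (Fin (n + 2)) | w (Fin.natAdd n 0) = 0 ∧
      w (Fin.natAdd n 1) ≠ 0}) :=
    (constr_Wyz hW).inter ((Constr.eqz (IsPF.coord _)).and (constr_ne _))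
  have h1 : (Wyz W ∩ {w : Pt K (Fin (n + 2)) | ¬ (w (Fin.natAdd n 0) = 0 ∧
      w (Fin.natAdd n 1) = 0)}) = (Wyz W ∩ {w | w (Fin.natAdd n 0) ≠ 0}) ∪
      (Wyz W ∩ {w | w (Fin.natAdd n 0) = 0 ∧ w (Fin.natAdd n 1) ≠ 0}) := by
    ext w
    simp only [Set.mem_inter_iff, Set.mem_union, Set.mem_ofPred_eq]
    tauto
  have hd : Disjoint (Wyz W ∩ {w : Pt K (Fin (n + 2)) | w (Fin.natAdd n 0) ≠ 0})
      (Wyz W ∩ {w | w (Fin.natAdd n 0) = 0 ∧ w (Fin.natAdd n 1) ≠ 0}) := by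
    rw [Set.disjoint_left]
    rintro w ⟨-, h⟩ ⟨-, h', -⟩
    exact h h'
  rw [h1, zetaG_union _ hV1 hV2 hd hE, mul_add]
  refine (ratRing K _).add_mem ?_ ?_
  · obtain ⟨A, hA⟩ := part_y g hW hE
    exact fst_mem_of_geom A fun N _ => hA N
  · set W0 : Set (Pt K (Fin n)) := W ∩ {x | aeval x g = 0} with hW0
    have hW0c : Constr W0 := hW.inter (Constr.zero g)
    obtain ⟨A, hA⟩ := part_z g hW0c hE
    refine fst_mem_of_geom A fun N hN => ?_
    rw [← hA N]
    obtain ⟨M, -, hM⟩ := exists_meas (K := K)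
    rw [hM, hM]
    congr 2
    ext z
    simp only [JetG, Set.mem_ofPred_eq, Set.mem_inter_iff, Wyz, hW0]
    have hc : PowerSeries.coeff 0 (aeval (arc z) (addyz g)) =
        aeval (fun i => z (Fin.castAdd 2 i, 0)) g + z (Fin.natAdd n 0, 0) *
          z (Fin.natAdd n 1, 0) := by
      rw [coeff_zero_arc]
      unfold addyz
      rw [map_add, map_mul, aeval_X, aeval_X, aeval_rename]
      rfl
    constructor
    · rintro ⟨⟨h1, h2, h3⟩, h4, h5⟩
      have h6 := h4 0 (Nat.pos_of_ne_zero hN)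
      rw [hc, h2, zero_mul, add_zero] at h6
      exact ⟨⟨⟨h1, h6⟩, h3⟩, h4, h5⟩
    · rintro ⟨⟨⟨h1, h6⟩, h3⟩, h4, h5⟩
      have h7 := h4 0 (Nat.pos_of_ne_zero hN)
      rw [hc, h6, zero_add] at h7
      exact ⟨⟨h1, (mul_eq_zero.1 h7).resolve_right h3, h3⟩, h4, h5⟩

end

end Pool.Agent.K4H43.CR
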