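import Pool.Agent.K4H43.CR.Loc

/-!
# The local zeta functions of `f + y z`, `f + y z + y' z'` determine the one of `f`
-/

set_option autoImplicit false

namespace Pool.Agent.K4H43.CR

open MvPolynomial Pool.Agent.W428.MOT Pool.Agent.Y229.MS
open Pool.Agent.W375.MG (JetG zetaG Good good_one ratRing_mono)

section
variable {K : Type} [Field K] {n : ℕ}

/-- the point `x` -/
def ptS (x : Fin n → K) : Set (Pt K (Fin n)) := {w | ∀ i, w i = algebraMap K _ (x i)}

theorem constr_ptS (x : Fin n → K) : Constr (ptS x) :=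
  Constr.all fun i => Constr.eq (IsPF.coord i) (IsPF.const (x i))

theorem ce_one : CE ({1} : Set (AlgebraicClosure K)) := ce_good good_one

theorem aeval_pt {σ : Type} (v : σ → K) (p : MvPolynomial σ K) :
    aeval (fun i => algebraMap K (AlgebraicClosure K) (v i)) p =
      algebraMap K (AlgebraicClosure K) (eval v p) := by
  induction p using MvPolynomial.induction_on with
  | C a => rw [aeval_C, eval_C]
  | add p q hp hq => rw [map_add, map_add, map_add, hp, hq]
  | mul_X p i hp => rw [map_mul, map_mul, map_mul, hp, aeval_X, eval_X]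

/-- the local zeta function -/
theorem zeta_eq [CharZero K] (f : MvPolynomial (Fin n) K) (x : Fin n → K)
    (hx : eval x f = 0) : zeta f x = zetaG f (ptS x) {1} := by
  obtain ⟨M₀, hM₀⟩ := Pool.Agent.W417.MT.K0.main K
  ext N
  rw [zeta, zetaG, PowerSeries.coeff_mk, PowerSeries.coeff_mk]
  rcases N with _ | N
  · rw [if_pos rfl, ← hM₀]
    have h1 : JetG f (ptS x) {1} 0 = ∅ := by
      rw [Set.eq_empty_iff_forall_notMem]
      rintro z ⟨h1, -, h2⟩
      rw [coeff_zero_arc] at h2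
      have h3 : (fun i => z (i, 0)) = fun i => algebraMap K (AlgebraicClosure K) (x i) :=
        funext h1
      rw [h3, Set.mem_singleton_iff] at h2
      rw [aeval_pt, hx, map_zero] at h2
      exact zero_ne_one h2
    have h2 : M₀.χ (Fin n × Fin (0 + 1)) (∅ : Set (Pt K (Fin n × Fin (0 + 1)))) = 0 := by
      have h3 := M₀.add (ι := Fin n × Fin (0 + 1)) ∅ ∅ Constr.empty Constr.empty
        (Set.disjoint_empty _)
      rw [Set.union_empty] at h3
      exact (add_eq_left.1 h3.symm)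
    rw [h1, h2, map_zero, zero_mul]
  · rw [if_neg (Nat.succ_ne_zero N)]
    congr 3
    ext z
    simp only [Jet, JetG, ptS, Set.mem_ofPred_eq, Set.mem_singleton_iff]
    refine and_congr_right fun _ => ?_
    constructor
    · intro h
      refine ⟨fun j hj => ?_, ?_⟩
      · rw [h j hj.le, if_neg (by omega)]
      · rw [h (N + 1) le_rfl, if_pos rfl]
    · rintro ⟨h1, h2⟩ j hj
      by_cases h : j = N + 1
      · rw [h, h2, if_pos rfl]
      · rw [h1 j (by omega), if_neg h]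

/-- the point `(x, 0, 0)` -/
def app (x : Fin n → K) : Fin (n + 2) → K := Fin.append x fun _ => 0

@[simp] theorem app_cast (x : Fin n → K) (i : Fin n) : app x (Fin.castAdd 2 i) = x i := by
  unfold app
  rw [Fin.append_left]

@[simp] theorem app_nat (x : Fin n → K) (i : Fin 2) : app x (Fin.natAdd n i) = 0 := by
  unfold app
  rw [Fin.append_right]

theorem eval_addyz (f : MvPolynomial (Fin n) K) (x : Fin n → K) :
    eval (app x) (addyz f) = eval x f := by
  unfold addyz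
  rw [map_add, map_mul, eval_X, eval_X, app_nat, app_nat, mul_zero, add_zero, eval_rename]
  congr 2
  funext i
  exact app_cast x i

theorem mem_ptS_app {x : Fin n → K} {w : Pt K (Fin (n + 2))} : w ∈ ptS (app x) ↔
    w ∈ Wyz (ptS x) ∧ w (Fin.natAdd n 0) = 0 ∧ w (Fin.natAdd n 1) = 0 := by
  constructor
  · intro h
    refine ⟨fun i => ?_, ?_, ?_⟩
    · have := h (Fin.castAdd 2 i)
      rwa [app_cast] at this
    · have := h (Fin.natAdd n 0)
      rwa [app_nat, map_zero] at this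
    · have := h (Fin.natAdd n 1)
      rwa [app_nat, map_zero] at this
  · rintro ⟨h1, h2, h3⟩ i
    refine Fin.addCases (fun i => ?_) (fun i => ?_) i
    · rw [app_cast]
      exact h1 i
    · rw [app_nat, map_zero]
      fin_cases i
      · exact h2
      · exact h3

theorem disj_ne (V W : Set (Pt K (Fin (n + 2))))
    (hV : ∀ w ∈ V, w (Fin.natAdd n 0) = 0 ∧ w (Fin.natAdd n 1) = 0) :
    Disjoint V (W ∩ {w | ¬ (w (Fin.natAdd n 0) = 0 ∧ w (Fin.natAdd n 1) = 0)}) := by
  rw [Set.disjoint_left]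
  rintro w h1 ⟨-, h2⟩
  exact h2 (hV w h1)

theorem constr_two : Constr {w : Pt K (Fin (n + 2)) | w (Fin.natAdd n 0) = 0 ∧
    w (Fin.natAdd n 1) = 0} :=
  (Constr.eqz (IsPF.coord _)).and (Constr.eqz (IsPF.coord _))

/-- first comparison -/
theorem comp1 [CharZero K] (f : MvPolynomial (Fin n) K) (x : Fin n → K)
    (hx : eval x f = 0) {S : Set (ℤ × ℤ)}
    (h : fst' K * zeta (addyz f) (app x) ∈ ratRing K S) :
    fst' K * zetaG (addyz f) (Wyz (ptS x)) {1} ∈ ratRing K S := by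
  have h1 : Wyz (ptS x) = ptS (app x) ∪ (Wyz (ptS x) ∩ {w : Pt K (Fin (n + 2)) |
      ¬ (w (Fin.natAdd n 0) = 0 ∧ w (Fin.natAdd n 1) = 0)}) := by
    ext w
    rw [Set.mem_union, mem_ptS_app, Set.mem_inter_iff, Set.mem_ofPred_eq]
    tauto
  rw [h1, zetaG_union _ (constr_ptS _) ((constr_Wyz (constr_ptS x)).inter constr_two.not)
    (disj_ne _ _ fun w hw => (mem_ptS_app.1 hw).2) ce_one, mul_add]
  refine (ratRing K _).add_mem ?_ ?_
  · rw [← zeta_eq _ _ (by rw [eval_addyz, hx])]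
    exact h
  · exact ratRing_mono (Set.empty_subset _) (part_ne f (constr_ptS x) ce_one)

/-- the exchange of the two pairs of variables -/
def sg (n : ℕ) : Equiv.Perm (Fin (n + 2 + 2)) :=
  Equiv.swap (Fin.castAdd 2 (Fin.natAdd n 0)) (Fin.natAdd (n + 2) 0) *
    Equiv.swap (Fin.castAdd 2 (Fin.natAdd n 1)) (Fin.natAdd (n + 2) 1)

theorem sg_x (i : Fin n) : sg n (Fin.castAdd 2 (Fin.castAdd 2 i)) =
    Fin.castAdd 2 (Fin.castAdd 2 i) := by
  have hi := i.2
  have a1 : (Fin.castAdd 2 (Fin.castAdd 2 i) : Fin (n + 2 + 2)) ≠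
      Fin.castAdd 2 (Fin.natAdd n 0) := by
    intro h
    have := congrArg Fin.val h
    simp only [Fin.val_castAdd, Fin.val_natAdd, Fin.isValue, Fin.val_zero] at this
    omega
  have a2 : (Fin.castAdd 2 (Fin.castAdd 2 i) : Fin (n + 2 + 2)) ≠
      Fin.castAdd 2 (Fin.natAdd n 1) := by
    intro h
    have := congrArg Fin.val h
    simp only [Fin.val_castAdd, Fin.val_natAdd, Fin.isValue, Fin.val_one] at this
    omega
  have a3 : (Fin.castAdd 2 (Fin.castAdd 2 i) : Fin (n + 2 + 2)) ≠ Fin.natAdd (n + 2) 0 := by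
    intro h
    have := congrArg Fin.val h
    simp only [Fin.val_castAdd, Fin.val_natAdd, Fin.isValue, Fin.val_zero] at this
    omega
  have a4 : (Fin.castAdd 2 (Fin.castAdd 2 i) : Fin (n + 2 + 2)) ≠ Fin.natAdd (n + 2) 1 := by
    intro h
    have := congrArg Fin.val h
    simp only [Fin.val_castAdd, Fin.val_natAdd, Fin.isValue, Fin.val_one] at this
    omega
  unfold sg
  rw [Equiv.Perm.mul_apply, Equiv.swap_apply_of_ne_of_ne a2 a4,
    Equiv.swap_apply_of_ne_of_ne a1 a3]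

theorem y_ne : (Fin.castAdd 2 (Fin.natAdd n 0) : Fin (n + 2 + 2)) ≠
    Fin.castAdd 2 (Fin.natAdd n 1) := by
  intro h
  have := congrArg Fin.val h
  simp only [Fin.val_castAdd, Fin.val_natAdd, Fin.isValue, Fin.val_zero, Fin.val_one] at this
  omega

theorem y_ne1 (j : Fin 2) (k : Fin 2) : (Fin.castAdd 2 (Fin.natAdd n j) : Fin (n + 2 + 2)) ≠
    Fin.natAdd (n + 2) k := by
  intro h
  have := congrArg Fin.val h
  have hj := j.2
  simp only [Fin.val_castAdd, Fin.val_natAdd] at this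
  omega

theorem y_ne2 : (Fin.natAdd (n + 2) 0 : Fin (n + 2 + 2)) ≠ Fin.natAdd (n + 2) 1 := by
  intro h
  have := congrArg Fin.val h
  simp only [Fin.val_natAdd, Fin.isValue, Fin.val_zero, Fin.val_one] at this
  omega

theorem sg_y : sg n (Fin.castAdd 2 (Fin.natAdd n 0)) = Fin.natAdd (n + 2) 0 := by
  unfold sg
  rw [Equiv.Perm.mul_apply, Equiv.swap_apply_of_ne_of_ne y_ne (y_ne1 _ _),
    Equiv.swap_apply_left]

theorem sg_z : sg n (Fin.castAdd 2 (Fin.natAdd n 1)) = Fin.natAdd (n + 2) 1 := by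
  unfold sg
  rw [Equiv.Perm.mul_apply, Equiv.swap_apply_left,
    Equiv.swap_apply_of_ne_of_ne (y_ne1 _ _).symm y_ne2.symm]

theorem sg_y' : sg n (Fin.natAdd (n + 2) 0) = Fin.castAdd 2 (Fin.natAdd n 0) := by
  unfold sg
  rw [Equiv.Perm.mul_apply, Equiv.swap_apply_of_ne_of_ne (y_ne1 _ _).symm y_ne2,
    Equiv.swap_apply_right]

theorem sg_z' : sg n (Fin.natAdd (n + 2) 1) = Fin.castAdd 2 (Fin.natAdd n 1) := by
  unfold sg
  rw [Equiv.Perm.mul_apply, Equiv.swap_apply_right,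
    Equiv.swap_apply_of_ne_of_ne y_ne.symm (y_ne1 _ _)]

theorem sg_addyz (f : MvPolynomial (Fin n) K) :
    renameEquiv K (sg n) (addyz (addyz f)) = addyz (addyz f) := by
  unfold addyz
  simp only [renameEquiv_apply, map_add, map_mul, rename_X, rename_rename, sg_y, sg_z, sg_y',
    sg_z']
  have e : (⇑(sg n) ∘ Fin.castAdd 2 ∘ Fin.castAdd 2 : Fin n → Fin (n + 2 + 2)) =
      Fin.castAdd 2 ∘ Fin.castAdd 2 := by
    funext i
    exact sg_x i
  rw [e]
  ring

/-- second comparison -/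
theorem comp2 [CharZero K] (f : MvPolynomial (Fin n) K) (x : Fin n → K)
    (hx : eval x f = 0) {S : Set (ℤ × ℤ)}
    (h : fst' K * zeta (addyz (addyz f)) (app (app x)) ∈ ratRing K S) :
    fst' K * zetaG (addyz (addyz f)) (Wyz (Wyz (ptS x))) {1} ∈ ratRing K S := by
  -- the points with `(y', z') = 0` and `(y, z) ≠ 0`
  obtain ⟨V3, hV3⟩ : ∃ V3 : Set (Pt K (Fin (n + 2 + 2))), V3 =
      (Wyz (Wyz (ptS x) ∩ {w : Pt K (Fin (n + 2)) | ¬ (w (Fin.natAdd n 0) = 0 ∧
        w (Fin.natAdd n 1) = 0)}) ∩ {w | w (Fin.natAdd (n + 2) 0) = 0 ∧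
          w (Fin.natAdd (n + 2) 1) = 0}) := ⟨_, rfl⟩
  have cV3 : Constr V3 := by
    rw [hV3]
    exact (constr_Wyz ((constr_Wyz (constr_ptS x)).inter constr_two.not)).inter constr_two
  have h1 : Wyz (Wyz (ptS x)) = (ptS (app (app x)) ∪ V3) ∪ (Wyz (Wyz (ptS x)) ∩
      {w : Pt K (Fin (n + 2 + 2)) | ¬ (w (Fin.natAdd (n + 2) 0) = 0 ∧
        w (Fin.natAdd (n + 2) 1) = 0)}) := by
    ext w
    rw [Set.mem_union, Set.mem_union, mem_ptS_app, hV3, Set.mem_inter_iff, Set.mem_inter_iff,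
      Set.mem_ofPred_eq, Set.mem_ofPred_eq]
    have e1 : w ∈ Wyz (ptS (app x)) ↔ w ∈ Wyz (Wyz (ptS x)) ∧
        (w (Fin.castAdd 2 (Fin.natAdd n 0)) = 0 ∧ w (Fin.castAdd 2 (Fin.natAdd n 1)) = 0) :=
      mem_ptS_app (x := x) (w := fun i => w (Fin.castAdd 2 i))
    have e2 : w ∈ Wyz (Wyz (ptS x) ∩ {w : Pt K (Fin (n + 2)) | ¬ (w (Fin.natAdd n 0) = 0 ∧
        w (Fin.natAdd n 1) = 0)}) ↔ w ∈ Wyz (Wyz (ptS x)) ∧
        ¬ (w (Fin.castAdd 2 (Fin.natAdd n 0)) = 0 ∧ w (Fin.castAdd 2 (Fin.natAdd n 1)) = 0) :=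
      Iff.rfl
    rw [e1, e2]
    tauto
  have hd3 : Disjoint (ptS (app (app x))) V3 := by
    rw [Set.disjoint_left, hV3]
    rintro w h1 ⟨⟨-, h2⟩, -⟩
    have h3 := (mem_ptS_app.1 (mem_ptS_app.1 h1).1).2
    exact h2 h3
  have hdu : ∀ w ∈ ptS (app (app x)) ∪ V3, w (Fin.natAdd (n + 2) 0) = 0 ∧
      w (Fin.natAdd (n + 2) 1) = 0 := by
    rintro w (hw | hw)
    · exact (mem_ptS_app.1 hw).2
    · rw [hV3] at hw
      exact hw.2
  rw [h1, zetaG_union _ ((constr_ptS _).union cV3)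
    ((constr_Wyz (constr_Wyz (constr_ptS x))).inter constr_two.not) (disj_ne _ _ hdu) ce_one,
    zetaG_union _ (constr_ptS _) cV3 hd3 ce_one, mul_add, mul_add]
  refine (ratRing K _).add_mem ((ratRing K _).add_mem ?_ ?_) ?_
  · rw [← zeta_eq _ _ (by rw [eval_addyz, eval_addyz, hx])]
    exact h
  · refine ratRing_mono (Set.empty_subset _) ?_
    have h2 := part_ne (addyz f) (constr_ptS (app x)) (E := {1}) ce_one
    have h3 := zeta_iso' rfl (renameEquiv K (sg n)) (addyz (addyz f))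
      ((constr_Wyz (constr_ptS (app x))).inter (constr_two (K := K) (n := n + 2)).not)
      (E := {1}) ce_one
    rw [sg_addyz] at h3
    rw [← h3] at h2
    have h4 : {w : Pt K (Fin (n + 2 + 2)) | (fun i => aeval w (renameEquiv K (sg n) (X i))) ∈
        Wyz (ptS (app x)) ∩ {w | ¬ (w (Fin.natAdd (n + 2) 0) = 0 ∧
          w (Fin.natAdd (n + 2) 1) = 0)}} = V3 := by
      rw [hV3]
      ext w
      have e0 : (fun i => aeval w (renameEquiv K (sg n) (X i))) = fun i => w (sg n i) := by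
        funext i
        rw [renameEquiv_apply, rename_X, aeval_X]
      rw [Set.mem_ofPred_eq, e0, Set.mem_inter_iff, Set.mem_inter_iff, Set.mem_ofPred_eq,
        Set.mem_ofPred_eq]
      have e1 : (fun i => w (sg n i)) ∈ Wyz (ptS (app x)) ↔
          (∀ i : Fin n, w (Fin.castAdd 2 (Fin.castAdd 2 i)) = algebraMap K _ (x i)) ∧
          w (Fin.natAdd (n + 2) 0) = 0 ∧ w (Fin.natAdd (n + 2) 1) = 0 := by
        refine (mem_ptS_app (x := x) (w := fun i => w (sg n (Fin.castAdd 2 i)))).trans ?_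
        show (∀ i : Fin n, w (sg n (Fin.castAdd 2 (Fin.castAdd 2 i))) = _) ∧ _ ∧ _ ↔ _
        simp only [sg_x, sg_y, sg_z]
      show (fun i => w (sg n i)) ∈ Wyz (ptS (app x)) ∧
        ¬ (w (sg n (Fin.natAdd (n + 2) 0)) = 0 ∧ w (sg n (Fin.natAdd (n + 2) 1)) = 0) ↔ _
      rw [e1, sg_y', sg_z']
      have e2 : w ∈ Wyz (Wyz (ptS x) ∩ {w : Pt K (Fin (n + 2)) | ¬ (w (Fin.natAdd n 0) = 0 ∧
          w (Fin.natAdd n 1) = 0)}) ↔
          (∀ i : Fin n, w (Fin.castAdd 2 (Fin.castAdd 2 i)) = algebraMap K _ (x i)) ∧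
          ¬ (w (Fin.castAdd 2 (Fin.natAdd n 0)) = 0 ∧ w (Fin.castAdd 2 (Fin.natAdd n 1)) = 0) :=
        Iff.rfl
      rw [e2]
      tauto
    rw [h4] at h2
    exact h2
  · exact ratRing_mono (Set.empty_subset _)
      (part_ne (addyz f) (constr_Wyz (constr_ptS x)) ce_one)

/-- **The local step.** -/
theorem local_step [CharZero K] (f : MvPolynomial (Fin n) K) (x : Fin n → K)
    (hx : eval x f = 0) {S1 S2 : Set (ℤ × ℤ)} (hS1 : ∀ p ∈ S1, 0 < p.2)
    (hS2 : ∀ p ∈ S2, 0 < p.2)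
    (h1 : fst' K * zeta (addyz f) (app x) ∈ ratRing K S1)
    (h2 : fst' K * zeta (addyz (addyz f)) (app (app x)) ∈ ratRing K S2) :
    fst' K * zeta f x ∈ ratRing K (shn 1 S1 ∪ shn 2 S2) := by
  have h3 := step tOne Pool.Agent.Y812.MS.two f (constr_ptS x) (E := {1}) ce_one hS1 hS2
    (comp1 f x hx h1) (comp2 f x hx h2)
  rw [shn_shn, ← zeta_eq f x hx] at h3
  exact h3

/-- points and isomorphisms -/
theorem zeta_point [CharZero K] {a : ℕ} (ψ : MvPolynomial (Fin a) K ≃ₐ[K] MvPolynomial (Fin a) K)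
    (g : MvPolynomial (Fin a) K) (w : Fin a → K) (hw : eval w g = 0) :
    ∃ w' : Fin a → K, eval w' (ψ g) = 0 ∧ zeta (ψ g) w' = zeta g w := by
  obtain ⟨w', hw'⟩ : ∃ w' : Fin a → K, w' = fun j => eval w (ψ.symm (X j)) := ⟨_, rfl⟩
  have h1 : ∀ p : MvPolynomial (Fin a) K, eval w' p = eval w (ψ.symm p) := by
    intro p
    have h2 : (aeval w' : MvPolynomial (Fin a) K →ₐ[K] K) =
        (aeval w : MvPolynomial (Fin a) K →ₐ[K] K).comp ψ.symm.toAlgHom := by
      refine MvPolynomial.algHom_ext fun j => ?_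
      rw [aeval_X, hw']
      rfl
    exact congrArg (fun φ : MvPolynomial (Fin a) K →ₐ[K] K => φ p) h2
  have h2 : eval w' (ψ g) = 0 := by rw [h1, AlgEquiv.symm_apply_apply, hw]
  refine ⟨w', h2, ?_⟩
  rw [zeta_eq _ _ h2, zeta_eq _ _ hw, ← zeta_iso' rfl ψ g (constr_ptS w) ce_one]
  congr 1
  ext u
  constructor
  · intro hu i
    have h4 : u = fun i => algebraMap K (AlgebraicClosure K) (w' i) := funext hu
    show aeval u (ψ (X i)) = _
    rw [h4, aeval_pt, h1, AlgEquiv.symm_apply_apply, eval_X]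
  · intro hu j
    have h4 : (fun i => aeval u (ψ (X i))) = fun i => algebraMap K (AlgebraicClosure K) (w i) :=
      funext hu
    have h5 : (aeval u : MvPolynomial (Fin a) K →ₐ[K] AlgebraicClosure K) =
        (aeval (fun i => algebraMap K (AlgebraicClosure K) (w i)) :
          MvPolynomial (Fin a) K →ₐ[K] AlgebraicClosure K).comp ψ.symm.toAlgHom := by
      have h6 : (aeval u : MvPolynomial (Fin a) K →ₐ[K] AlgebraicClosure K).comp ψ.toAlgHom =
          (aeval (fun i => algebraMap K (AlgebraicClosure K) (w i)) :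
            MvPolynomial (Fin a) K →ₐ[K] AlgebraicClosure K) := by
        refine MvPolynomial.algHom_ext fun j => ?_
        rw [aeval_X]
        exact congrFun h4 j
      rw [← h6]
      ext i
      show _ = aeval u (ψ (ψ.symm (X i)))
      rw [AlgEquiv.apply_symm_apply]
    have h7 := congrArg (fun φ : MvPolynomial (Fin a) K →ₐ[K] AlgebraicClosure K => φ (X j)) h5
    simp only [aeval_X] at h7
    rw [h7, hw']
    exact aeval_pt w _

end

end Pool.Agent.K4H43.CR
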